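import Pool.Agent.Work.MP_db9399_ow.Interface

/-!
# Block SYM (helper21): symmetric local lemma in a product space
-/

set_option autoImplicit false

namespace Pool.Agent.Work.MP_db9399_ow.helper21

open Finset Classical
open Pool.Agent.Work.MP_db9399_all (nb mis pr DepOnI PackI Stmt_LLLI)
open Pool.Agent.Work.MP_db9399_en (ex)

universe u

theorem exp_half : Real.exp (1 / 2) ≤ 2 := by
  have h1 : Real.exp (1 / 2) ^ 2 = Real.exp 1 := by
    rw [← Real.exp_nat_mul]
    norm_num
  have h2 := Real.exp_one_lt_d9
  by_contra h
  rw [not_le] at h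
  nlinarith

theorem pr_of_forall {Ω : Type u} [Fintype Ω] [Nonempty Ω] (E : Ω → Prop) (h : ∀ ω, E ω) :
    pr E = 1 := by
  unfold pr
  have h1 : (univ.filter E) = univ := by
    ext ω
    simp [h ω]
  rw [h1, card_univ]
  exact div_self (by
    have := Fintype.card_pos (α := Ω)
    exact_mod_cast this.ne')

/-- **Block SYM.** -/
theorem stmt_SYM (hL : Stmt_LLLI.{u}) : Stmt_SYM.{u} := by
  intro J _ M κ _ Q E p s t hM hs ht hdep hQ hmul hp hpr hcond
  have hs1 : 0 < s + 1 := by linarith
  have hst : 1 ≤ (s + 1) * (t + 1) := by nlinarith [mul_nonneg hs ht]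
  have hp1 : p < 1 := by
    by_contra hcon
    rw [not_lt] at hcon
    have : 16 * 1 * 1 ≤ 16 * p * ((s + 1) * (t + 1)) := by
      apply mul_le_mul _ hst (by norm_num) (by positivity)
      linarith
    nlinarith
  have hne : Nonempty (J → Fin M) := ⟨fun _ => ⟨0, hM⟩⟩
  refine hL J M κ (1 / (4 * (s + 1))) Q (fun _ => 2 * p) (fun k f => ¬ E k f) hM
    (by positivity) ?_ ?_ ?_
  · apply div_le_div_of_nonneg_left (by norm_num) (by norm_num)
    linarith
  · intro k
    rcases (Q k).eq_empty_or_nonempty with hempty | hnon
    · refine ⟨PEmpty, inferInstance, fun _ => Q k, fun _ => E k, fun a => a.elim, fun a => a.elim,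
        fun a => a.elim, ?_, ?_⟩
      · rw [Fintype.sum_empty]
        linarith
      · intro f _ hE
        have h1 : ∀ f', E k f' := by
          intro f'
          have h2 := hdep k f f' (by
            intro y hy
            rw [hempty] at hy
            exact absurd hy (Finset.notMem_empty y))
          rw [← h2]
          exact hE
        have h3 := hpr k
        rw [pr_of_forall (E k) h1] at h3
        linarith
    · refine ⟨PUnit, inferInstance, fun _ => Q k, fun _ => E k, fun _ => hdep k, fun _ => hnon,
        fun _ => Finset.Subset.refl _, ?_, fun f hf => hf PUnit.unit⟩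
      rw [Fintype.sum_unique]
      have h1 : Real.exp (2 * (1 / (4 * (s + 1))) * ((Q k).card : ℝ)) ≤ 2 := by
        refine le_trans (Real.exp_le_exp.2 ?_) exp_half
        rw [show 2 * (1 / (4 * (s + 1))) * ((Q k).card : ℝ) = ((Q k).card : ℝ) / (2 * (s + 1)) by
          field_simp
          ring]
        rw [div_le_div_iff₀ (by positivity) (by norm_num)]
        have := hQ k
        linarith
      calc pr (E k) * Real.exp (2 * (1 / (4 * (s + 1))) * ((Q k).card : ℝ))
          ≤ p * 2 := mul_le_mul (hpr k) h1 (Real.exp_pos _).le hp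
        _ = 2 * p := by ring
  · intro y
    rw [Finset.sum_const, nsmul_eq_mul]
    have h1 : ((univ.filter fun r => y ∈ Q r).card : ℝ) * (2 * p) ≤ t * (2 * p) :=
      mul_le_mul_of_nonneg_right (hmul y) (by positivity)
    refine le_trans h1 ?_
    rw [le_div_iff₀ (by positivity)]
    nlinarith [mul_nonneg hp hs1.le]

end Pool.Agent.Work.MP_db9399_ow.helper21
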