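import Pool.Agent.Work.MP_db9399_ow.Interface

/-!
# Block LSTL (helper21): list colouring by the local lemma
-/

set_option autoImplicit false
set_option linter.unusedSectionVars false

namespace Pool.Agent.Work.MP_db9399_ow.helper21

open Finset Classical
open Pool.Agent.Work.MP_db9399_all (nb mis pr DepOnI PackI Stmt_LLLI)
open Pool.Agent.Work.MP_db9399_en (ex ex_mul ex_sum)

universe u

section Prob

variable {J : Type u} [Fintype J] {M : ℕ}

/-- the law of one coordinate -/
theorem ex_coord (hM : 0 < M) (y : J) (i : Fin M) :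
    ex (fun f : J → Fin M => if f y = i then (1 : ℝ) else 0) = 1 / M := by
  have hM' : (0 : ℝ) < M := by exact_mod_cast hM
  unfold ex
  rw [Finset.sum_boole]
  have h1 := Fintype.card_filter_piFinset_const (ι := J) (univ : Finset (Fin M)) y i
  rw [Fintype.piFinset_univ, if_pos (mem_univ _)] at h1
  have h2 : ((univ.filter fun f : J → Fin M => f y = i).card : ℝ) =
      (M : ℝ) ^ (Fintype.card J - 1) := by
    rw [h1, card_univ, Fintype.card_fin]
    push_cast
    rfl
  have h3 : (Fintype.card (J → Fin M) : ℝ) = (M : ℝ) ^ (Fintype.card J - 1) * M := by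
    rw [Fintype.card_fun, Fintype.card_fin]
    push_cast
    rw [← pow_succ]
    congr 1
    have := Fintype.card_pos_iff.2 ⟨y⟩
    omega
  rw [h2, h3]
  field_simp

/-- the law of two coordinates -/
theorem pr_pair (hM : 0 < M) {P : ℕ} (a b : Fin M → Fin P) (y z : J) (hyz : y ≠ z) :
    pr (fun f : J → Fin M => a (f y) = b (f z)) =
      ((univ.filter fun p : Fin M × Fin M => a p.1 = b p.2).card : ℝ) / (M : ℝ) ^ 2 := by
  have h0 : pr (fun f : J → Fin M => a (f y) = b (f z)) =
      ex (fun f : J → Fin M => if a (f y) = b (f z) then (1 : ℝ) else 0) := by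
    unfold pr ex
    rw [Finset.sum_boole]
    congr!
  have h1 : (fun f : J → Fin M => if a (f y) = b (f z) then (1 : ℝ) else 0) =
      fun f => ∑ p ∈ univ.filter (fun p : Fin M × Fin M => a p.1 = b p.2),
        (if f y = p.1 then (1 : ℝ) else 0) * (if f z = p.2 then (1 : ℝ) else 0) := by
    funext f
    have h2 : ∀ p : Fin M × Fin M, (if f y = p.1 then (1 : ℝ) else 0) *
        (if f z = p.2 then (1 : ℝ) else 0) = if p = (f y, f z) then 1 else 0 := by
      intro p
      by_cases h3 : f y = p.1
      · by_cases h4 : f z = p.2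
        · rw [if_pos h3, if_pos h4, if_pos (Prod.ext h3.symm h4.symm), one_mul]
        · rw [if_neg h4, mul_zero, if_neg]
          intro h5
          exact h4 (by rw [h5])
      · rw [if_neg h3, zero_mul, if_neg]
        intro h5
        exact h3 (by rw [h5])
    simp_rw [h2]
    rw [Finset.sum_ite_eq']
    simp only [mem_filter, mem_univ, true_and]
  rw [h0, h1, ex_sum]
  have h6 : ∀ p : Fin M × Fin M, ex (fun f : J → Fin M => (if f y = p.1 then (1 : ℝ) else 0) *
      (if f z = p.2 then (1 : ℝ) else 0)) = 1 / (M : ℝ) ^ 2 := by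
    intro p
    rw [ex_mul hM {y} (fun f : J → Fin M => if f y = p.1 then (1 : ℝ) else 0)
      (fun f : J → Fin M => if f z = p.2 then (1 : ℝ) else 0), ex_coord hM, ex_coord hM]
    · ring
    · intro f f' hf
      simp only [hf y (mem_singleton_self y)]
    · intro f f' hf
      have : f z = f' z := hf z (by
        rw [mem_compl, mem_singleton]
        exact fun h => hyz h.symm)
      simp only [this]
  simp_rw [h6]
  rw [Finset.sum_const, nsmul_eq_mul, mul_one_div]

end Prob

section Count

variable {V : Type u} [Fintype V] {P l : ℕ} (G : SimpleGraph V) (U : Finset V)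
  (s : V → Fin l → Fin P)

/-- number of pairs of indices with equal colours -/
noncomputable def cnt (v w : V) : ℕ :=
  (univ.filter fun p : Fin l × Fin l => s v p.1 = s w p.2).card

theorem cnt_eq (v w : V) : cnt s v w = ∑ i : Fin l, ∑ j : Fin l, if s w j = s v i then 1 else 0 := by
  unfold cnt
  rw [Finset.card_filter, Fintype.sum_prod_type]
  refine Finset.sum_congr rfl fun i _ => Finset.sum_congr rfl fun j _ => ?_
  simp only [eq_comm]

theorem cnt_symm (v w : V) : cnt s v w = cnt s w v := by
  rw [cnt_eq, cnt_eq, Finset.sum_comm]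
  refine Finset.sum_congr rfl fun i _ => Finset.sum_congr rfl fun j _ => ?_
  simp only [eq_comm]

theorem cnt_sum (k : ℕ) (y : V)
    (h : ∀ b, (((nb G y ∩ U) ×ˢ (univ : Finset (Fin l))).filter
      (fun p => s p.1 p.2 = b)).card ≤ k) :
    ∑ w ∈ nb G y ∩ U, cnt s y w ≤ l * k := by
  simp_rw [cnt_eq]
  rw [Finset.sum_comm]
  calc ∑ i : Fin l, ∑ w ∈ nb G y ∩ U, ∑ j : Fin l, (if s w j = s y i then 1 else 0)
      ≤ ∑ _i : Fin l, k := by
        refine Finset.sum_le_sum fun i _ => ?_
        refine le_trans (le_of_eq ?_) (h (s y i))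
        rw [Finset.card_filter, Finset.sum_product]
    _ = l * k := by rw [Finset.sum_const, card_univ, Fintype.card_fin, smul_eq_mul]

end Count

/-- **Block LSTL.** -/
theorem stmt_LSTL (hL : Stmt_LLLI.{u}) : Stmt_LSTL.{u} := by
  intro V _ G P l k U s hl hkl h
  have hl' : (0 : ℝ) < l := by exact_mod_cast hl
  obtain ⟨good, hgood⟩ : ∃ good : V × V → Prop, good = fun r => r.1 ∈ U ∧ r.2 ∈ U ∧ G.Adj r.1 r.2 :=
    ⟨_, rfl⟩
  obtain ⟨W, hW⟩ : ∃ W : V × V → ℝ, W = fun r => if good r then
      Real.exp 1 * ((cnt s r.1 r.2 : ℝ) / (l : ℝ) ^ 2) else 0 := ⟨_, rfl⟩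
  have hW0 : ∀ r, 0 ≤ W r := by
    intro r
    rw [hW]
    dsimp only
    split_ifs
    · positivity
    · exact le_rfl
  have hmain := hL V l (V × V) (1 / 4) (fun r => if good r then {r.1, r.2} else ∅) W
    (fun r f => good r → s r.1 (f r.1) ≠ s r.2 (f r.2)) hl (by norm_num) le_rfl ?_ ?_
  · obtain ⟨f, hf⟩ := hmain
    refine ⟨f, fun v hv w hw hvw => hf (v, w) ?_⟩
    rw [hgood]
    exact ⟨hv, hw, hvw⟩
  · intro r
    by_cases hr : good r
    · have hr' := hr
      rw [hgood] at hr'
      have hne : r.1 ≠ r.2 := hr'.2.2.ne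
      refine ⟨PUnit, inferInstance, fun _ => {r.1, r.2},
        fun _ f => s r.1 (f r.1) = s r.2 (f r.2), fun _ => ?_, fun _ => ⟨r.1, by simp⟩,
        fun _ => ?_, ?_, fun f hf _ => hf PUnit.unit⟩
      · intro f f' hff
        have e1 : f r.1 = f' r.1 := hff r.1 (by simp)
        have e2 : f r.2 = f' r.2 := hff r.2 (by simp)
        show (s r.1 (f r.1) = s r.2 (f r.2)) = (s r.1 (f' r.1) = s r.2 (f' r.2))
        rw [e1, e2]
      · rw [if_pos hr]
      · rw [Fintype.sum_unique, pr_pair hl _ _ _ _ hne, card_pair hne, hW]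
        dsimp only
        rw [if_pos hr]
        unfold cnt
        norm_num
        rw [mul_comm]
    · refine ⟨PEmpty, inferInstance, fun a => a.elim, fun a => a.elim, fun a => a.elim,
        fun a => a.elim, fun a => a.elim, ?_, fun f _ hr' => absurd hr' hr⟩
      rw [Fintype.sum_empty]
      exact hW0 r
  · intro y
    by_cases hy : y ∈ U
    · have hsub : (univ.filter fun r : V × V => y ∈ (if good r then ({r.1, r.2} : Finset V) else ∅)) ⊆
          ((nb G y ∩ U).image fun w => (y, w)) ∪ ((nb G y ∩ U).image fun w => (w, y)) := by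
        intro r hr
        rw [mem_filter] at hr
        by_cases hg : good r
        · rw [if_pos hg, mem_insert, mem_singleton] at hr
          have hg' := hg
          rw [hgood] at hg'
          obtain ⟨hg1, hg2, hg3⟩ := hg'
          rw [mem_union, mem_image, mem_image]
          rcases hr.2 with h1 | h1
          · left
            refine ⟨r.2, ?_, Prod.ext h1 rfl⟩
            rw [mem_inter]
            refine ⟨?_, hg2⟩
            rw [h1]
            simp [nb, hg3]
          · right
            refine ⟨r.1, ?_, Prod.ext rfl h1⟩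
            rw [mem_inter]
            refine ⟨?_, hg1⟩
            rw [h1]
            simp [nb, hg3.symm]
        · rw [if_neg hg] at hr
          exact absurd hr.2 (Finset.notMem_empty _)
      have hWle : ∀ v w, W (v, w) ≤ Real.exp 1 * ((cnt s v w : ℝ) / (l : ℝ) ^ 2) := by
        intro v w
        rw [hW]
        dsimp only
        split_ifs
        · exact le_rfl
        · positivity
      have hk := cnt_sum G U s k y (h y hy)
      have hk' : ∑ w ∈ nb G y ∩ U, (cnt s y w : ℝ) ≤ l * k := by exact_mod_cast hk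
      have hone : ∑ w ∈ nb G y ∩ U, Real.exp 1 * ((cnt s y w : ℝ) / (l : ℝ) ^ 2) ≤ 1 / 8 := by
        rw [← Finset.mul_sum, ← Finset.sum_div]
        have h1 : (∑ w ∈ nb G y ∩ U, (cnt s y w : ℝ)) / (l : ℝ) ^ 2 ≤ 1 / 32 := by
          rw [div_le_div_iff₀ (by positivity) (by norm_num), one_mul]
          have h2 : (32 : ℝ) * k ≤ l := by exact_mod_cast hkl
          nlinarith
        have h3 := Real.exp_one_lt_d9
        have h4 : (0 : ℝ) < Real.exp 1 := Real.exp_pos 1
        nlinarith
      calc ∑ r ∈ univ.filter (fun r : V × V => y ∈ (if good r then ({r.1, r.2} : Finset V) else ∅)),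
            W r
          ≤ ∑ r ∈ ((nb G y ∩ U).image fun w => (y, w)) ∪ ((nb G y ∩ U).image fun w => (w, y)),
            W r := Finset.sum_le_sum_of_subset_of_nonneg hsub fun r _ _ => hW0 r
        _ ≤ ∑ r ∈ (nb G y ∩ U).image (fun w => (y, w)), W r +
            ∑ r ∈ (nb G y ∩ U).image (fun w => (w, y)), W r := by
            rw [← Finset.sum_union_inter]
            have : 0 ≤ ∑ r ∈ (nb G y ∩ U).image (fun w => (y, w)) ∩
              (nb G y ∩ U).image (fun w => (w, y)), W r := Finset.sum_nonneg fun r _ => hW0 r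
            linarith
        _ = ∑ w ∈ nb G y ∩ U, W (y, w) + ∑ w ∈ nb G y ∩ U, W (w, y) := by
            rw [Finset.sum_image (fun a _ b _ hab => (Prod.ext_iff.1 hab).2),
              Finset.sum_image (fun a _ b _ hab => (Prod.ext_iff.1 hab).1)]
        _ ≤ 1 / 8 + 1 / 8 := by
            apply add_le_add
            · exact le_trans (Finset.sum_le_sum fun w _ => hWle y w) hone
            · refine le_trans (Finset.sum_le_sum fun w _ => hWle w y) ?_
              simp_rw [cnt_symm s _ y]
              exact hone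
        _ = 1 / 4 := by norm_num
    · refine le_trans (le_of_eq ?_) (show (0 : ℝ) ≤ 1 / 4 by norm_num)
      refine Finset.sum_eq_zero fun r hr => ?_
      rw [mem_filter] at hr
      by_cases hg : good r
      · rw [if_pos hg, mem_insert, mem_singleton] at hr
        rw [hgood] at hg
        exfalso
        rcases hr.2 with h1 | h1
        · exact hy (h1 ▸ hg.1)
        · exact hy (h1 ▸ hg.2.1)
      · rw [if_neg hg] at hr
        exact absurd hr.2 (Finset.notMem_empty _)

end Pool.Agent.Work.MP_db9399_ow.helper21
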